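import Pool.Agent.W670.TL.Defs

set_option autoImplicit false

namespace Pool.Agent.W850.TL

open Pool.Agent.W670.TL Filter Asymptotics

lemma ev1 (a b τ c K : ℝ) (hτ : 0 < τ) (hab : a + τ ≤ b) (hc : 0 < c) (hK : 0 ≤ K) :
    ∀ᶠ x : ℝ in atTop, K * x ^ a * (1 + Real.log x) < c * x ^ b := by
  have h1 : (fun x : ℝ => 1 + Real.log x) =o[atTop] (fun x : ℝ => x ^ τ) := by
    refine IsLittleO.add ?_ (isLittleO_log_rpow_atTop hτ)
    rw [isLittleO_const_left]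
    right
    exact tendsto_norm_atTop_atTop.comp (tendsto_rpow_atTop hτ)
  have h2 := h1.bound (c := c / (2 * (K + 1))) (by positivity)
  filter_upwards [h2, eventually_ge_atTop 1] with x hx hx1
  have hx0 : (0 : ℝ) < x := by linarith
  have hl : 0 ≤ Real.log x := Real.log_nonneg hx1
  rw [Real.norm_eq_abs, Real.norm_eq_abs, abs_of_nonneg (by linarith),
    abs_of_nonneg (by positivity)] at hx
  have h3 : x ^ (a + τ) ≤ x ^ b := Real.rpow_le_rpow_of_exponent_le hx1 hab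
  have h4 : x ^ (a + τ) = x ^ a * x ^ τ := Real.rpow_add hx0 a τ
  have hxb : 0 < x ^ b := by positivity
  calc K * x ^ a * (1 + Real.log x) ≤ K * x ^ a * (c / (2 * (K + 1)) * x ^ τ) := by
        apply mul_le_mul_of_nonneg_left hx (by positivity)
    _ = (K / (K + 1)) * (c / 2) * x ^ (a + τ) := by rw [h4]; field_simp
    _ ≤ 1 * (c / 2) * x ^ b := by
        apply mul_le_mul _ h3 (by positivity) (by positivity)
        apply mul_le_mul_of_nonneg_right _ (by positivity)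
        rw [div_le_one (by positivity)]; linarith
    _ < c * x ^ b := by nlinarith

lemma ev2 (B s t : ℝ) (hst : s < t) : ∀ᶠ x : ℝ in atTop, B * x ^ s < x ^ t := by
  have h := (tendsto_rpow_atTop (sub_pos.2 hst)).eventually_gt_atTop B
  filter_upwards [h, eventually_ge_atTop 1] with x hx hx1
  have hx0 : (0 : ℝ) < x := by linarith
  have h2 : x ^ t = x ^ (t - s) * x ^ s := by
    rw [← Real.rpow_add hx0]; congr 1; ring
  rw [h2]
  exact mul_lt_mul_of_pos_right hx (by positivity)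

lemma params (q m Δ θ ε w : ℝ) (hq : 2 ≤ q) (hm1 : 1 ≤ m) (hΔ : 0 ≤ Δ) (hθ : 0 ≤ θ)
    (hw : w = 1 - m * θ) (hw0 : 0 < w) (hε : 0 < ε) :
    ∃ η κ τ L : ℝ, 0 < η ∧ L = q + m * η ∧ 0 < L ∧ 0 < κ ∧ Δ < κ ∧
      L * κ = q * Δ / w + ε / 2 ∧ 0 < τ ∧ τ < 1 ∧ L * θ + τ ≤ η * (1 - τ) := by
  obtain ⟨s, hs⟩ : ∃ s : ℝ, s = ε / (4 * (Δ * m + 1)) := ⟨_, rfl⟩
  have hDm : 0 ≤ Δ * m := mul_nonneg hΔ (by linarith)
  have hs0 : 0 < s := by rw [hs]; positivity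
  have hs1 : Δ * m * s ≤ ε / 4 := by
    rw [hs, mul_div_assoc', div_le_div_iff₀ (by positivity) (by positivity)]
    nlinarith only [hDm, hε]
  obtain ⟨η, hη⟩ : ∃ η : ℝ, η = q * θ / w + s := ⟨_, rfl⟩
  have hqθ : 0 ≤ q * θ := mul_nonneg (by linarith) hθ
  have hη0 : 0 < η := by rw [hη]; positivity
  have hηw : η * w = q * θ + s * w := by rw [hη, add_mul, div_mul_cancel₀ _ hw0.ne']
  obtain ⟨L, hL⟩ : ∃ L : ℝ, L = q + m * η := ⟨_, rfl⟩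
  have hL0 : 0 < L := by rw [hL]; positivity
  have hLE : Δ * L = q * Δ / w + Δ * m * s := by
    rw [hL, hη]
    have : w + m * θ = 1 := by rw [hw]; ring
    field_simp
    linear_combination (Δ * q) * this
  obtain ⟨κ, hκ⟩ : ∃ κ : ℝ, κ = (q * Δ / w + ε / 2) / L := ⟨_, rfl⟩
  have hE00 : 0 ≤ q * Δ / w := div_nonneg (mul_nonneg (by linarith) hΔ) hw0.le
  have hκ0 : 0 < κ := by rw [hκ]; positivity
  have hκL : L * κ = q * Δ / w + ε / 2 := by rw [hκ, mul_div_cancel₀ _ hL0.ne']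
  have hκΔ : Δ < κ := by
    rw [hκ, lt_div_iff₀ hL0, hLE]; linarith only [hs1, hε]
  obtain ⟨g, hg⟩ : ∃ g : ℝ, g = η * w - q * θ := ⟨_, rfl⟩
  have hg0 : 0 < g := by rw [hg, hηw]; linarith only [mul_pos hs0 hw0]
  have hgη : g ≤ η := by
    have h1 : w ≤ 1 := by rw [hw]; linarith only [mul_nonneg (by linarith : (0:ℝ) ≤ m) hθ]
    have h2 : η * w ≤ η := mul_le_of_le_one_right hη0.le h1
    linarith only [hg, h2, hqθ]
  obtain ⟨τ, hτ⟩ : ∃ τ : ℝ, τ = g / (2 * (η + 1)) := ⟨_, rfl⟩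
  have hτ0 : 0 < τ := by rw [hτ]; positivity
  have hτ1 : τ < 1 := by rw [hτ, div_lt_one (by positivity)]; linarith only [hgη, hη0]
  have hτe : τ * (η + 1) = g / 2 := by rw [hτ]; field_simp
  have hexp : L * θ + τ ≤ η * (1 - τ) := by
    have e1 : L * θ = q * θ + η * (m * θ) := by rw [hL]; ring
    have e2 : m * θ = 1 - w := by rw [hw]; ring
    rw [e1, e2]
    linarith only [hτe, hg, hg0]
  exact ⟨η, κ, τ, L, hη0, hL, hL0, hκ0, hκΔ, hκL, hτ0, hτ1, hexp⟩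

/-- bounds for `Y` -/
lemma yb (x η m L : ℝ) (n q Z : ℕ) (hq2 : 2 ≤ q) (hx1 : 1 ≤ x)
    (hm : m = n * ((q : ℝ) - 1)) (hL : L = q + m * η) (hZle : (Z : ℝ) ≤ x ^ η)
    (hZ1 : (1 : ℝ) ≤ Z) :
    1 ≤ x ^ q * ((q : ℝ) ^ q * (Z : ℝ) ^ (q - 1)) ^ n ∧
    x ^ q * ((q : ℝ) ^ q * (Z : ℝ) ^ (q - 1)) ^ n ≤ ((q : ℝ) ^ q) ^ n * x ^ L := by
  have hx0 : 0 < x := by linarith
  have t0 : (1 : ℝ) ≤ q := by exact_mod_cast (by omega : 1 ≤ q)
  constructor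
  · have t1 : (1 : ℝ) ≤ (q : ℝ) ^ q := one_le_pow₀ t0
    have t2 : (1 : ℝ) ≤ (Z : ℝ) ^ (q - 1) := one_le_pow₀ hZ1
    have t3 : (1 : ℝ) ≤ (q : ℝ) ^ q * (Z : ℝ) ^ (q - 1) := one_le_mul_of_one_le_of_one_le t1 t2
    have t4 : (1 : ℝ) ≤ ((q : ℝ) ^ q * (Z : ℝ) ^ (q - 1)) ^ n := one_le_pow₀ t3
    have t5 : (1 : ℝ) ≤ x ^ q := one_le_pow₀ hx1
    exact one_le_mul_of_one_le_of_one_le t5 t4
  · have a1 : ((Z : ℝ) ^ (q - 1)) ^ n ≤ x ^ (m * η) := by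
      have a0 : ((Z : ℝ) ^ (q - 1)) ^ n ≤ ((x ^ η) ^ (q - 1)) ^ n :=
        pow_le_pow_left₀ (by positivity) (pow_le_pow_left₀ (by positivity) hZle _) _
      refine a0.trans (le_of_eq ?_)
      rw [← pow_mul, ← Real.rpow_natCast (x ^ η), ← Real.rpow_mul hx0.le]
      congr 1
      rw [hm]
      push_cast [Nat.cast_sub (by omega : 1 ≤ q)]
      ring
    have a2 : x ^ q * ((q : ℝ) ^ q * (Z : ℝ) ^ (q - 1)) ^ n =
        (x ^ q * ((q : ℝ) ^ q) ^ n) * ((Z : ℝ) ^ (q - 1)) ^ n := by rw [mul_pow]; ring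
    have a3 : ((q : ℝ) ^ q) ^ n * x ^ L = (x ^ q * ((q : ℝ) ^ q) ^ n) * x ^ (m * η) := by
      rw [hL, Real.rpow_add hx0, Real.rpow_natCast]; ring
    rw [a2, a3]
    exact mul_le_mul_of_nonneg_left a1 (by positivity)

/-- upper bound -/
lemma upb (x B L θ Y N C C1 : ℝ) (hx1 : 1 ≤ x) (hB1 : 1 ≤ B) (hL0 : 0 < L) (hθ : 0 ≤ θ)
    (hY1 : 1 ≤ Y) (hYle : Y ≤ B * x ^ L) (hN : N ≤ C * Y ^ θ) (hCC : C ≤ C1)
    (hC1 : 0 ≤ C1) :
    Real.logb 2 x + N * Real.logb 2 Y ≤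
      (1 / Real.log 2 + C1 * B ^ θ * ((Real.log B + L) / Real.log 2)) * x ^ (L * θ) *
        (1 + Real.log x) := by
  have hx0 : 0 < x := by linarith
  have hB0 : 0 < B := by linarith
  have hY0 : 0 < Y := by linarith
  have hlx : 0 ≤ Real.log x := Real.log_nonneg hx1
  have hlogB : 0 ≤ Real.log B := Real.log_nonneg hB1
  have hl2 : 0 < Real.log 2 := Real.log_pos (by norm_num)
  have hlogY : Real.logb 2 Y ≤ (Real.log B + L) / Real.log 2 * (1 + Real.log x) := by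
    rw [Real.logb, div_mul_eq_mul_div]
    apply div_le_div_of_nonneg_right _ hl2.le
    have h := Real.log_le_log hY0 hYle
    rw [Real.log_mul hB0.ne' (by positivity), Real.log_rpow hx0] at h
    nlinarith only [mul_nonneg hlogB hlx, h, hL0]
  have hlogY0 : 0 ≤ Real.logb 2 Y := Real.logb_nonneg (by norm_num) hY1
  have hYθ : Y ^ θ ≤ B ^ θ * x ^ (L * θ) := by
    have h := Real.rpow_le_rpow hY0.le hYle hθ
    rwa [Real.mul_rpow hB0.le (by positivity), ← Real.rpow_mul hx0.le] at h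
  have hxa : 1 ≤ x ^ (L * θ) := Real.one_le_rpow hx1 (by positivity)
  have b1 : Real.logb 2 x ≤ 1 / Real.log 2 * (x ^ (L * θ) * (1 + Real.log x)) := by
    rw [Real.logb, div_eq_mul_one_div, mul_comm]
    apply mul_le_mul_of_nonneg_left _ (by positivity)
    nlinarith only [hxa, hlx]
  have b2 : N ≤ C1 * (B ^ θ * x ^ (L * θ)) := by
    calc N ≤ C * Y ^ θ := hN
      _ ≤ C1 * Y ^ θ := mul_le_mul_of_nonneg_right hCC (by positivity)
      _ ≤ _ := mul_le_mul_of_nonneg_left hYθ hC1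
  have b3 : N * Real.logb 2 Y ≤
      C1 * (B ^ θ * x ^ (L * θ)) * ((Real.log B + L) / Real.log 2 * (1 + Real.log x)) := by
    calc N * Real.logb 2 Y ≤ C1 * (B ^ θ * x ^ (L * θ)) * Real.logb 2 Y :=
          mul_le_mul_of_nonneg_right b2 hlogY0
      _ ≤ _ := mul_le_mul_of_nonneg_left hlogY (by positivity)
  calc _ ≤ 1 / Real.log 2 * (x ^ (L * θ) * (1 + Real.log x)) +
      C1 * (B ^ θ * x ^ (L * θ)) * ((Real.log B + L) / Real.log 2 * (1 + Real.log x)) :=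
        add_le_add b1 b3
    _ = _ := by ring

/-- lower bound -/
lemma lwb (x η τ c Z : ℝ) (hx0 : 0 < x) (hτ1 : τ < 1) (hτ0 : 0 < τ) (hc0 : 0 < c)
    (hZge : x ^ η / 2 ≤ Z) : c / 2 * x ^ (η * (1 - τ)) ≤ c * Z ^ (1 - τ) := by
  have c1 : (x ^ η / 2) ^ (1 - τ) ≤ Z ^ (1 - τ) :=
    Real.rpow_le_rpow (by positivity) hZge (by linarith)
  have c2 : (x ^ η / 2) ^ (1 - τ) = x ^ (η * (1 - τ)) * (1 / 2) ^ (1 - τ) := by
    rw [div_eq_mul_one_div, Real.mul_rpow (by positivity) (by norm_num), ← Real.rpow_mul hx0.le]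
  have c3 : (1 / 2 : ℝ) ≤ (1 / 2) ^ (1 - τ) := by
    calc (1 / 2 : ℝ) = (1 / 2) ^ (1 : ℝ) := (Real.rpow_one _).symm
      _ ≤ _ := Real.rpow_le_rpow_of_exponent_ge (by norm_num) (by norm_num) (by linarith)
  have c4 : 0 < x ^ (η * (1 - τ)) := by positivity
  have c5 := mul_le_mul_of_nonneg_left c3 c4.le
  rw [← c2] at c5
  have c6 := mul_le_mul_of_nonneg_left (c5.trans c1) hc0.le
  linarith only [c6]

theorem big (h1 : S_CHB) (h2 : S_CNT) : S_BIG := by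
  intro n q ℓ Δ θ hn hq hcop hΔ hθ hlt hS ε hε
  have hq2 : 2 ≤ q := hq.two_le
  have hq2' : (2 : ℝ) ≤ q := by exact_mod_cast hq2
  have hn1 : (1 : ℝ) ≤ n := by exact_mod_cast hn
  obtain ⟨m, hm⟩ : ∃ m : ℝ, m = n * ((q : ℝ) - 1) := ⟨_, rfl⟩
  have hm1 : 1 ≤ m := by rw [hm]; nlinarith only [hn1, hq2']
  rw [← hm] at hlt ⊢
  obtain ⟨w, hw⟩ : ∃ w : ℝ, w = 1 - m * θ := ⟨_, rfl⟩
  have hw0 : 0 < w := by rw [hw]; linarith only [hlt]
  rw [← hw]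
  obtain ⟨η, κ, τ, L, hη0, hL, hL0, hκ0, hκΔ, hκL, hτ0, hτ1, hexp⟩ :=
    params q m Δ θ ε w hq2' hm1 hΔ hθ hw hw0 hε
  obtain ⟨E0, hE0⟩ : ∃ E0 : ℝ, E0 = q * Δ / w := ⟨_, rfl⟩
  rw [← hE0] at hκL ⊢
  obtain ⟨C, hC⟩ := hS (κ - Δ) (by linarith only [hκΔ])
  rw [add_sub_cancel] at hC
  obtain ⟨c, hc0, hc⟩ := h1 τ hτ0
  obtain ⟨B, hB⟩ : ∃ B : ℝ, B = ((q : ℝ) ^ q) ^ n := ⟨_, rfl⟩
  have hB1 : 1 ≤ B := by
    have t0 : (1 : ℝ) ≤ q := by linarith only [hq2']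
    have t1 : (1 : ℝ) ≤ (q : ℝ) ^ q := one_le_pow₀ t0
    rw [hB]
    exact one_le_pow₀ t1
  have hB0 : 0 < B := by linarith only [hB1]
  have hlogB : 0 ≤ Real.log B := Real.log_nonneg hB1
  have hl2 : 0 < Real.log 2 := Real.log_pos (by norm_num)
  have hC10 : 0 ≤ max C 0 := le_max_right _ _
  have hKK0 : 0 ≤ 1 / Real.log 2 + max C 0 * B ^ θ * ((Real.log B + L) / Real.log 2) := by
    positivity
  have e1 := ev1 (L * θ) (η * (1 - τ)) τ (c / 2) _ hτ0 hexp (half_pos hc0) hKK0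
  have e2 := ev2 (B ^ κ) (E0 + ε / 2) (E0 + ε) (by linarith only [hε])
  have e3 := (tendsto_rpow_atTop hη0).eventually_ge_atTop 2
  obtain ⟨D₀, hD₀⟩ := Filter.eventually_atTop.1 ((e1.and e2).and (e3.and (eventually_ge_atTop 1)))
  refine ⟨D₀, ?_⟩
  intro K hK hfin hD
  obtain ⟨⟨f1, f2⟩, f3, f4⟩ := hD₀ _ hD
  obtain ⟨x, hx⟩ : ∃ x : ℝ, x = D K := ⟨_, rfl⟩
  have h2' := h2 K hK n q ℓ
  rw [← hx] at f1 f2 f3 f4 h2' ⊢
  have hx0 : 0 < x := by linarith only [f4]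
  by_contra hcon
  push Not at hcon
  obtain ⟨Z, hZ⟩ : ∃ Z : ℕ, Z = ⌊x ^ η⌋₊ := ⟨_, rfl⟩
  have hZ2 : 2 ≤ Z := by rw [hZ]; exact Nat.le_floor (by exact_mod_cast f3)
  have hZle : (Z : ℝ) ≤ x ^ η := by rw [hZ]; exact Nat.floor_le (by positivity)
  have hZge : x ^ η / 2 ≤ Z := by
    have := Nat.lt_floor_add_one (x ^ η)
    rw [← hZ] at this
    linarith only [this, f3]
  have hZ1 : (1 : ℝ) ≤ Z := by exact_mod_cast (by omega : 1 ≤ Z)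
  obtain ⟨hY1, hYle⟩ := yb x η m L n q Z hq2 f4 hm hL hZle hZ1
  obtain ⟨Y, hY⟩ : ∃ Y : ℝ, Y = x ^ q * ((q : ℝ) ^ q * (Z : ℝ) ^ (q - 1)) ^ n := ⟨_, rfl⟩
  rw [← hY] at hY1 hYle
  rw [← hB] at hYle
  have hY0 : 0 < Y := by linarith only [hY1]
  have hYκ : Y ^ κ < tors K ℓ := by
    calc Y ^ κ ≤ (B * x ^ L) ^ κ := Real.rpow_le_rpow hY0.le hYle hκ0.le
      _ = B ^ κ * x ^ (E0 + ε / 2) := by
        rw [Real.mul_rpow hB0.le (by positivity), ← Real.rpow_mul hx0.le, hκL]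
      _ < x ^ (E0 + ε) := f2
      _ < tors K ℓ := hcon
  have hcnt := h2' Z κ Y hfin hq hcop hZ2 hκ0.le hY hYκ
  have hlow := hc Z hZ2
  have hsp := hC Y hY1
  have hup := upb x B L θ Y _ C (max C 0) f4 hB1 hL0 hθ hY1 hYle hsp (le_max_left _ _) hC10
  have hlow2 := lwb x η τ c Z hx0 hτ1 hτ0 hc0 hZge
  linarith only [hcnt, hlow, hup, hlow2, f1]

end Pool.Agent.W850.TL
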